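import Mathlib
import Pool.Agent.H24.RevMem
import Pool.Agent.H24.HomP3

set_option autoImplicit false

namespace Pool.Agent.Results.MP_91a774_al.Undecidable

theorem result : ∃ (G : Type) (_ : Group G) (x : Fin 7 × Bool → G) (P : Submonoid G),
    P = Submonoid.closure (Set.range x) ∧
    (∀ a ∈ P, ∀ b ∈ P, ∃ c ∈ P, ∃ d ∈ P, a * c = b * d) ∧
    (∀ g : G, ∃ p ∈ P, ∃ q ∈ P, g = p * q⁻¹) ∧
    (ComputablePred fun w : List ((Fin 7 × Bool) × Bool) =>
      FreeGroup.lift x (FreeGroup.mk w) = 1) ∧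
    ¬ ComputablePred fun w : List ((Fin 7 × Bool) × Bool) =>
      FreeGroup.lift x (FreeGroup.mk w) ∈ P := by
  obtain ⟨G, _, x, h⟩ := Pool.Agent.H24.RevMem.final
  exact ⟨G, inferInstance, x, _, rfl, h⟩

end Pool.Agent.Results.MP_91a774_al.Undecidable
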